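import Pool.Agent.H13.LK.Stmts

/-!
# Row ENDL: visible planks, with labels inside the planks
-/

set_option autoImplicit false

namespace Pool.LK

open Finset Real
open Pool.Agent.H49.Ent Pool.Agent.H32.Dense Pool.STK Pool.KA Pool.KSAT Pool.K2S
open Pool.KA.ENP Pool.KA.END2

namespace ENDL

variable {J : ℕ}

/-- The time of the projected family. -/
lemma pj_tm {m n : ℕ} (F : Fam m J) {κ : Type} (z : F.Ω → κ)
    (A : κ → Fin m → Fin m → ℝ) (hA : ∀ y i j, |A y i j| ≤ 1) (e : Fin n → Fin m) {θ : ℝ}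
    (hz : Det F.p (fun ω => (F.l ω, F.Z ω)) z) (hTm : F.Tm (θ * J)) :
    (pj F z A hA e J le_rfl).Tm (θ * J) := by
  have hp0 := F.isLaw.nonneg
  unfold Fam.Tm at hTm ⊢
  refine hTm.trans ?_
  have h1 : CH F.p F.T (fun ω => (F.l ω, F.Z ω)) = CH F.p (fun ω => F.T ω / 2 ^ (J - J))
      (fun ω => (F.l ω, F.Z ω)) := by
    congr 1
    funext ω
    rw [Nat.sub_self, pow_zero, Nat.div_one]
  rw [h1]
  refine CH_mono_cond hp0 ?_
  intro ω ω' h0 h0' h
  have hzz : z ω = z ω' := hz ω ω' h0 h0' h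
  simp only [Fam.l, Prod.mk.injEq] at h
  obtain ⟨⟨h1, h2⟩, h4⟩ := h
  change (((fun i => prj (A (z ω)) e (F.u ω) i / ((m : ℝ) + 1)),
    (fun i => prj (A (z ω)) e (F.d ω) i / ((m : ℝ) + 1))), (z ω, F.Z ω)) =
    (((fun i => prj (A (z ω')) e (F.u ω') i / ((m : ℝ) + 1)),
    (fun i => prj (A (z ω')) e (F.d ω') i / ((m : ℝ) + 1))), (z ω', F.Z ω'))
  rw [h1, h2, hzz, h4]

/-- The position of the projected family. -/
lemma pj_x {m n : ℕ} (F : Fam m J) {κ : Type} (z : F.Ω → κ)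
    (A : κ → Fin m → Fin m → ℝ) (hA : ∀ y i j, |A y i j| ≤ 1) (e : Fin n → Fin m) (ω : F.Ω)
    (i : Fin n) : (pj F z A hA e J le_rfl).x ω i = prj (A (z ω)) e (F.x ω) i / (m + 1) := by
  have ht : (pj F z A hA e J le_rfl).t ω = F.t ω := by
    change (((F.T ω / 2 ^ (J - J) : ℕ) : ℝ)) / 2 ^ J = (F.T ω : ℝ) / 2 ^ J
    rw [Nat.sub_self, pow_zero, Nat.div_one]
  have h1 := congrFun (prj_line (A (z ω)) e (F.u ω) (F.d ω) (F.t ω)) i
  have h2 : prj (A (z ω)) e (F.x ω) i =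
    prj (A (z ω)) e (fun i => F.u ω i + F.t ω * F.d ω i) i := rfl
  rw [h2, h1]
  change prj (A (z ω)) e (F.u ω) i / ((m : ℝ) + 1) +
    (pj F z A hA e J le_rfl).t ω * (prj (A (z ω)) e (F.d ω) i / ((m : ℝ) + 1)) = _
  rw [ht]
  ring

/-- The entropy of the positions of the projected family. -/
lemma pj_X {m n : ℕ} (F : Fam m J) {κ : Type} (z : F.Ω → κ)
    (A : κ → Fin m → Fin m → ℝ) (hA : ∀ y i j, |A y i j| ≤ 1) (e : Fin n → Fin m) :
    CH F.p ((pj F z A hA e J le_rfl).X J) (pj F z A hA e J le_rfl).W ≤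
      CH F.p (fun ω => fl J (prj (A (z ω)) e (F.x ω))) (fun ω => (z ω, F.W ω)) +
        n * Real.log 5 := by
  have hp := F.isLaw
  have hp0 := hp.nonneg
  obtain ⟨NX, hNX⟩ : ∃ NX : F.Ω → Fin n → ℤ, NX = fun ω => fl J (prj (A (z ω)) e (F.x ω)) :=
    ⟨_, rfl⟩
  rw [← hNX]
  have h0 : CH F.p ((pj F z A hA e J le_rfl).X J) (pj F z A hA e J le_rfl).W =
      CH F.p ((pj F z A hA e J le_rfl).X J) (fun ω => (z ω, F.W ω)) := by
    have k1 : ∀ ω ω', (pj F z A hA e J le_rfl).W ω = (pj F z A hA e J le_rfl).W ω' →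
        (z ω, F.W ω) = (z ω', F.W ω') := by
      intro ω ω' h
      change (F.T ω / 2 ^ (J - J), (z ω, F.Z ω)) = (F.T ω' / 2 ^ (J - J), (z ω', F.Z ω')) at h
      rw [Nat.sub_self, pow_zero, Nat.div_one, Nat.div_one] at h
      simp only [Prod.mk.injEq] at h
      simp only [Fam.W, Prod.mk.injEq]
      tauto
    have k2 : ∀ ω ω', (z ω, F.W ω) = (z ω', F.W ω') →
        (pj F z A hA e J le_rfl).W ω = (pj F z A hA e J le_rfl).W ω' := by
      intro ω ω' h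
      simp only [Fam.W, Prod.mk.injEq] at h
      change (F.T ω / 2 ^ (J - J), (z ω, F.Z ω)) = (F.T ω' / 2 ^ (J - J), (z ω', F.Z ω'))
      rw [h.1, h.2.1, h.2.2]
    refine CH_congr hp0 ?_ ?_ ?_ ?_
    · intro ω ω' _ _ h
      exact (Prod.ext_iff.mp h).1
    · intro ω ω' _ _ h
      exact (Prod.ext_iff.mp h).1
    · intro ω ω' _ _ h
      exact k1 ω ω' h
    · intro ω ω' _ _ h
      exact k2 ω ω' h
  rw [h0]
  have h1 := CH_le_add hp0 ((pj F z A hA e J le_rfl).X J) NX (fun ω => (z ω, F.W ω))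
  have h2 := CH_fl hp J (pj F z A hA e J le_rfl).x (fun ω => (NX ω, (z ω, F.W ω))) 1 (by
    intro ω ω' _ _ h i
    simp only [Prod.mk.injEq] at h
    rw [hNX] at h
    have h3 := of_fl_eq h.1 i
    rw [pj_x, pj_x, ← sub_div, abs_div, abs_of_pos (by positivity : (0 : ℝ) < (m : ℝ) + 1)]
    refine (div_le_self (abs_nonneg _) ?_).trans h3
    have : (0 : ℝ) ≤ m := Nat.cast_nonneg m
    linarith)
  have e5 : (2 : ℝ) * 1 + 3 = 5 := by norm_num
  rw [e5] at h2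
  have h4 : CH F.p ((pj F z A hA e J le_rfl).X J) (fun ω => (NX ω, (z ω, F.W ω))) =
      CH F.p (fun ω => fl J ((pj F z A hA e J le_rfl).x ω)) (fun ω => (NX ω, (z ω, F.W ω))) := rfl
  rw [h4] at h1
  linarith

/-- The coordinates of the combined frame. -/
noncomputable def cM {c k : ℕ} (A : Fin (c + k) → Fin (c + k) → ℝ) (M : Fin c → Fin c → ℝ)
    (N : Fin k → Fin k → ℝ) (i l : Fin (c + k)) : ℝ :=
  Fin.addCases (motive := fun _ => ℝ) (fun i => ∑ j, M i j * A (Fin.castAdd k j) l)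
    (fun i => ∑ j, N i j * A (Fin.natAdd c j) l) i

/-- The inverse of the combined frame. -/
noncomputable def cI {c k : ℕ} (B : Fin (c + k) → Fin (c + k) → ℝ) (M : Fin c → Fin c → ℝ)
    (N : Fin k → Fin k → ℝ) (i j : Fin (c + k)) : ℝ :=
  Fin.addCases (motive := fun _ => ℝ) (fun j => ∑ s, B i (Fin.castAdd k s) * M s j)
    (fun j => ∑ s, B i (Fin.natAdd c s) * N s j) j

lemma sum_bd {n : ℕ} {f g : Fin n → ℝ} {x y : ℝ} (hf : ∀ i, |f i| ≤ x) (hg : ∀ i, |g i| ≤ y)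
    (hx : 0 ≤ x) : |∑ i, f i * g i| ≤ n * (x * y) := by
  refine (Finset.abs_sum_le_sum_abs _ _).trans ?_
  refine (Finset.sum_le_card_nsmul _ _ (x * y) fun i _ => ?_).trans (le_of_eq ?_)
  · rw [abs_mul]
    exact mul_le_mul (hf i) (hg i) (abs_nonneg _) hx
  · rw [Finset.card_univ, Fintype.card_fin, nsmul_eq_mul]

lemma cM_bd {c k : ℕ} {A : Fin (c + k) → Fin (c + k) → ℝ} {M : Fin c → Fin c → ℝ}
    {N : Fin k → Fin k → ℝ} {b₁ b : ℝ} (hb₁ : 1 ≤ b₁) (hb : 1 ≤ b) (hA : ∀ i j, |A i j| ≤ 1)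
    (hM : ∀ i j, |M i j| ≤ b₁) (hN : ∀ i j, |N i j| ≤ b₁) (i l : Fin (c + k)) :
    |cM A M N i l| ≤ (c + k : ℕ) * b₁ * b := by
  have e : ((c + k : ℕ) : ℝ) * b₁ * b = (c + k) * (b₁ * b) := by
    push_cast
    ring
  have h0 : b₁ * 1 ≤ b₁ * b := mul_le_mul_of_nonneg_left hb (by linarith)
  have h0' : 0 ≤ b₁ * b := by positivity
  rw [e]
  unfold cM
  refine Fin.addCases (fun i => ?_) (fun i => ?_) i
  · rw [Fin.addCases_left]
    refine (sum_bd (hM i) (fun j => hA _ l) (by linarith)).trans ?_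
    have h1 : (c : ℝ) * (b₁ * 1) ≤ c * (b₁ * b) := mul_le_mul_of_nonneg_left h0 (Nat.cast_nonneg c)
    have h2 : 0 ≤ (k : ℝ) * (b₁ * b) := by positivity
    linarith
  · rw [Fin.addCases_right]
    refine (sum_bd (hN i) (fun j => hA _ l) (by linarith)).trans ?_
    have h1 : (k : ℝ) * (b₁ * 1) ≤ k * (b₁ * b) := mul_le_mul_of_nonneg_left h0 (Nat.cast_nonneg k)
    have h2 : 0 ≤ (c : ℝ) * (b₁ * b) := by positivity
    linarith

lemma cI_bd {c k : ℕ} {B : Fin (c + k) → Fin (c + k) → ℝ} {M : Fin c → Fin c → ℝ}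
    {N : Fin k → Fin k → ℝ} {b₁ b : ℝ} (hb₁ : 1 ≤ b₁) (hb : 1 ≤ b) (hB : ∀ i j, |B i j| ≤ b)
    (hM : ∀ i j, |M i j| ≤ b₁) (hN : ∀ i j, |N i j| ≤ b₁) (i l : Fin (c + k)) :
    |cI B M N i l| ≤ (c + k : ℕ) * b₁ * b := by
  have e : ((c + k : ℕ) : ℝ) * b₁ * b = (c + k) * (b * b₁) := by
    push_cast
    ring
  have h0' : 0 ≤ b * b₁ := by positivity
  rw [e]
  unfold cI
  refine Fin.addCases (fun i => ?_) (fun i => ?_) l
  · rw [Fin.addCases_left]
    refine (sum_bd (fun s => hB _ _) (fun s => hM s i) (by linarith)).trans ?_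
    have h2 : 0 ≤ (k : ℝ) * (b * b₁) := by positivity
    linarith
  · rw [Fin.addCases_right]
    refine (sum_bd (fun s => hB _ _) (fun s => hN s i) (by linarith)).trans ?_
    have h2 : 0 ≤ (c : ℝ) * (b * b₁) := by positivity
    linarith

/-- A sum over three indices. -/
lemma tri_sum {c : ℕ} (f : Fin c → ℝ) (g : Fin c → ℝ) (M M' : Fin c → Fin c → ℝ)
    (h : ∀ i l, ∑ j, M i j * M' j l = if i = l then 1 else 0) :
    ∑ j, (∑ s, f s * M s j) * (∑ t, M' j t * g t) = ∑ s, f s * g s := by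
  have e1 : ∀ j, (∑ s, f s * M s j) * (∑ t, M' j t * g t) =
      ∑ s, ∑ t, f s * g t * (M s j * M' j t) := by
    intro j
    rw [Finset.sum_mul_sum]
    refine Finset.sum_congr rfl fun s _ => Finset.sum_congr rfl fun t _ => ?_
    ring
  rw [Finset.sum_congr rfl fun j _ => e1 j, Finset.sum_comm]
  refine Finset.sum_congr rfl fun s _ => ?_
  rw [Finset.sum_comm]
  have e2 : ∀ t, ∑ j, f s * g t * (M s j * M' j t) = f s * g t * (if s = t then 1 else 0) := by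
    intro t
    rw [← Finset.mul_sum, h]
  rw [Finset.sum_congr rfl fun t _ => e2 t, Finset.sum_eq_single s]
  · rw [if_pos rfl, mul_one]
  · intro t _ ht
    rw [if_neg (Ne.symm ht), mul_zero]
  · intro hs
    exact absurd (Finset.mem_univ s) hs

lemma cI_cM {c k : ℕ} {A B : Fin (c + k) → Fin (c + k) → ℝ} {M M' : Fin c → Fin c → ℝ}
    {N N' : Fin k → Fin k → ℝ}
    (hBA : ∀ i l, ∑ j, B i j * A j l = if i = l then 1 else 0)
    (hM : ∀ i l, ∑ j, M' i j * M j l = if i = l then 1 else 0)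
    (hN : ∀ i l, ∑ j, N' i j * N j l = if i = l then 1 else 0) (i l : Fin (c + k)) :
    ∑ j, cI B M' N' i j * cM A M N j l = if i = l then 1 else 0 := by
  rw [Fin.sum_univ_add]
  have h1 : ∑ j : Fin c, cI B M' N' i (Fin.castAdd k j) * cM A M N (Fin.castAdd k j) l =
      ∑ s : Fin c, B i (Fin.castAdd k s) * A (Fin.castAdd k s) l := by
    unfold cI cM
    simp only [Fin.addCases_left]
    exact tri_sum _ _ _ _ hM
  have h2 : ∑ j : Fin k, cI B M' N' i (Fin.natAdd c j) * cM A M N (Fin.natAdd c j) l =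
      ∑ s : Fin k, B i (Fin.natAdd c s) * A (Fin.natAdd c s) l := by
    unfold cI cM
    simp only [Fin.addCases_right]
    exact tri_sum _ _ _ _ hN
  rw [h1, h2, ← Fin.sum_univ_add (fun j => B i j * A j l), hBA]

lemma mco_cM_left {c k : ℕ} (A : Fin (c + k) → Fin (c + k) → ℝ) (M : Fin c → Fin c → ℝ)
    (N : Fin k → Fin k → ℝ) (x : Fin (c + k) → ℝ) (i : Fin c) :
    mco (cM A M N) x (Fin.castAdd k i) = mco M (prj A (Fin.castAdd k) x) i := by
  unfold mco cM prj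
  simp only [Fin.addCases_left, Finset.sum_mul, Finset.mul_sum]
  rw [Finset.sum_comm]
  refine Finset.sum_congr rfl fun j _ => Finset.sum_congr rfl fun l _ => ?_
  ring

lemma mco_cM_right {c k : ℕ} (A : Fin (c + k) → Fin (c + k) → ℝ) (M : Fin c → Fin c → ℝ)
    (N : Fin k → Fin k → ℝ) (x : Fin (c + k) → ℝ) (i : Fin k) :
    mco (cM A M N) x (Fin.natAdd c i) = mco N (prj A (Fin.natAdd c) x) i := by
  unfold mco cM prj
  simp only [Fin.addCases_right, Finset.sum_mul, Finset.mul_sum]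
  rw [Finset.sum_comm]
  refine Finset.sum_congr rfl fun j _ => Finset.sum_congr rfl fun l _ => ?_
  ring

lemma mco_smul {n : ℕ} (M : Fin n → Fin n → ℝ) (x y : Fin n → ℝ) (r : ℝ)
    (h : ∀ i, x i = r * y i) (i : Fin n) : mco M x i = r * mco M y i := by
  unfold mco
  rw [Finset.mul_sum]
  refine Finset.sum_congr rfl fun j _ => ?_
  rw [h j]
  ring

/-- The combined precisions. -/
def ck {c k : ℕ} (f : Fin c → ℕ) (g : Fin k → ℕ) (i : Fin (c + k)) : ℕ :=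
  Fin.addCases (motive := fun _ => ℕ) f g i

/-- The cells in the combined frame are almost determined by the cells in the parts. -/
lemma near {c k : ℕ} {A : Fin (c + k) → Fin (c + k) → ℝ} {M : Fin c → Fin c → ℝ}
    {N : Fin k → Fin k → ℝ} {f : Fin c → ℕ} {g : Fin k → ℕ} {x x' : Fin (c + k) → ℝ}
    {yc yc' : Fin c → ℝ} {yk yk' : Fin k → ℝ} {r : ℝ} (hr : 0 < r)
    (h1 : ∀ i, yc i = prj A (Fin.castAdd k) x i / r)
    (h1' : ∀ i, yc' i = prj A (Fin.castAdd k) x' i / r)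
    (h2 : ∀ i, yk i = prj A (Fin.natAdd c) x i / r)
    (h2' : ∀ i, yk' i = prj A (Fin.natAdd c) x' i / r)
    (e1 : flk f (mco M yc) = flk f (mco M yc')) (e2 : flk g (mco N yk) = flk g (mco N yk'))
    (i : Fin (c + k)) :
    |2 ^ ck f g i * mco (cM A M N) x i - 2 ^ ck f g i * mco (cM A M N) x' i| ≤ r / 2 ^ 0 := by
  rw [pow_zero, div_one]
  have key : ∀ {n : ℕ} (f : Fin n → ℕ) (M : Fin n → Fin n → ℝ) (X X' y y' : Fin n → ℝ)
      (i : Fin n), (∀ i, y i = X i / r) → (∀ i, y' i = X' i / r) →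
      flk f (mco M y) = flk f (mco M y') →
      |2 ^ f i * mco M X i - 2 ^ f i * mco M X' i| ≤ r := by
    intro n f M X X' y y' i hy hy' he
    have a1 := mco_smul M X y r (fun i => by rw [hy]; field_simp) i
    have a2 := mco_smul M X' y' r (fun i => by rw [hy']; field_simp) i
    have h3 : ⌊(2 : ℝ) ^ f i * mco M y i⌋ = ⌊(2 : ℝ) ^ f i * mco M y' i⌋ := congrFun he i
    have b1 := Int.floor_le ((2 : ℝ) ^ f i * mco M y i)
    have b2 := Int.lt_floor_add_one ((2 : ℝ) ^ f i * mco M y i)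
    have b3 := Int.floor_le ((2 : ℝ) ^ f i * mco M y' i)
    have b4 := Int.lt_floor_add_one ((2 : ℝ) ^ f i * mco M y' i)
    rw [h3] at b1 b2
    have h4 : |(2 : ℝ) ^ f i * mco M y i - 2 ^ f i * mco M y' i| ≤ 1 := by
      rw [abs_le]
      constructor <;> linarith
    have h5 : (2 : ℝ) ^ f i * mco M X i - 2 ^ f i * mco M X' i =
        r * (2 ^ f i * mco M y i - 2 ^ f i * mco M y' i) := by
      rw [a1, a2]
      ring
    rw [h5, abs_mul, abs_of_pos hr]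
    calc r * _ ≤ r * 1 := mul_le_mul_of_nonneg_left h4 hr.le
      _ = r := mul_one r
  refine Fin.addCases (fun i => ?_) (fun i => ?_) i
  · rw [mco_cM_left, mco_cM_left]
    unfold ck
    rw [Fin.addCases_left]
    exact key f M _ _ yc yc' i h1 h1' e1
  · rw [mco_cM_right, mco_cM_right]
    unfold ck
    rw [Fin.addCases_right]
    exact key g N _ _ yk yk' i h2 h2' e2

lemma flk_eq {n : ℕ} (f : Fin n → ℕ) (y : Fin n → ℝ) :
    flk f y = fl 0 (fun i => 2 ^ f i * y i) := by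
  funext i
  change ⌊(2 : ℝ) ^ f i * y i⌋ = ⌊(2 : ℝ) ^ 0 * (2 ^ f i * y i)⌋
  rw [pow_zero, one_mul]

end ENDL

open ENDL

theorem endl_thm : ENDLStmt := by
  intro c k b₁ b hb₁ hb hc hk ε hε
  obtain ⟨θ₁, hθ₁, J₁, hJ₁⟩ := hc (ε / 4) (by positivity)
  obtain ⟨θ₂, hθ₂, J₂, hJ₂⟩ := hk (ε / 4) (by positivity)
  obtain ⟨m, hm⟩ : ∃ m : ℕ, m = c + k := ⟨_, rfl⟩
  obtain ⟨C, hC⟩ : ∃ C : ℝ, C = 2 * ((c + k : ℕ) * Real.log (2 * (((c + k : ℕ) : ℝ) + 1) + 3)) +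
    2 * (c * Real.log 5) + k * Real.log 5 + k * Real.log (2 * ((c + k : ℕ) : ℝ) + 3) :=
    ⟨_, rfl⟩
  obtain ⟨J₃, hJ₃⟩ := exists_nat_ge (4 * C / ε)
  refine ⟨min (min θ₁ θ₂) (ε / 4), lt_min (lt_min hθ₁ hθ₂) (by positivity),
    max (max J₁ J₂) J₃, ?_⟩
  intro J hJ F κ z A B hA hB hBA hz hTm P hP
  have hJ1 : J₁ ≤ J := (le_max_left _ _).trans ((le_max_left _ _).trans hJ)
  have hJ2 : J₂ ≤ J := (le_max_right _ _).trans ((le_max_left _ _).trans hJ)
  have hJ3 : J₃ ≤ J := (le_max_right _ _).trans hJ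
  have hp := F.isLaw
  have hp0 := hp.nonneg
  obtain ⟨θ, hθ⟩ : ∃ θ, θ = min (min θ₁ θ₂) (ε / 4) := ⟨_, rfl⟩
  rw [← hθ] at hTm
  have hJ0 : (0 : ℝ) ≤ J := Nat.cast_nonneg J
  have q1 : θ * J ≤ θ₁ * J := mul_le_mul_of_nonneg_right
    (by rw [hθ]; exact (min_le_left _ _).trans (min_le_left _ _)) hJ0
  have q2 : θ * J ≤ θ₂ * J := mul_le_mul_of_nonneg_right
    (by rw [hθ]; exact (min_le_left _ _).trans (min_le_right _ _)) hJ0
  have q3 : θ * J ≤ ε / 4 * J := mul_le_mul_of_nonneg_right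
    (by rw [hθ]; exact min_le_right _ _) hJ0
  have tmono : ∀ θ', θ * J ≤ θ' * J → F.Tm (θ' * J) := by
    intro θ' h
    unfold Fam.Tm at hTm ⊢
    linarith
  obtain ⟨Bc, hBc⟩ := hJ₁ J hJ1 (pj F z A hA (Fin.castAdd k) J le_rfl)
    (pj_tm F z A hA _ hz (tmono θ₁ q1))
  obtain ⟨Bk, hBk⟩ := hJ₂ J hJ2 (pj F z A hA (Fin.natAdd c) J le_rfl)
    (pj_tm F z A hA _ hz (tmono θ₂ q2))
  choose Ic hIc using Bc.inv
  choose Ik hIk using Bk.inv
  let B' : Lbl F ((c + k : ℕ) * b₁ * b) :=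
    { k := fun ω => ck (Bc.k ω) (Bk.k ω)
      M := fun ω => cM (A (z ω)) (Bc.M ω) (Bk.M ω)
      le := by
        intro ω i
        refine Fin.addCases (fun i => ?_) (fun i => ?_) i
        · unfold ck
          rw [Fin.addCases_left]
          exact Bc.le ω i
        · unfold ck
          rw [Fin.addCases_right]
          exact Bk.le ω i
      bd := fun ω i j => cM_bd hb₁ hb (hA (z ω)) (Bc.bd ω) (Bk.bd ω) i j
      inv := fun ω => ⟨cI (B (z ω)) (Ic ω) (Ik ω),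
        fun i j => cI_bd hb₁ hb (hB (z ω)) (hIc ω).1 (hIk ω).1 i j,
        fun i l => cI_cM (hBA (z ω)) (hIc ω).2 (hIk ω).2 i l⟩ }
  refine ⟨B', ?_⟩
  -- the number of digits
  have s1 : (∑ ω, F.p ω * ∑ i, ((J : ℝ) - B'.k ω i)) =
      (∑ ω, F.p ω * ∑ i, ((J : ℝ) - Bc.k ω i)) + (∑ ω, F.p ω * ∑ i, ((J : ℝ) - Bk.k ω i)) := by
    rw [← Finset.sum_add_distrib]
    refine Finset.sum_congr rfl fun ω _ => ?_
    rw [← mul_add, Fin.sum_univ_add]
    congr 2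
    · refine Finset.sum_congr rfl fun i _ => ?_
      have : B'.k ω (Fin.castAdd k i) = Bc.k ω i := by
        change ck (Bc.k ω) (Bk.k ω) (Fin.castAdd k i) = _
        unfold ck
        rw [Fin.addCases_left]
      rw [this]
    · refine Finset.sum_congr rfl fun i _ => ?_
      have : B'.k ω (Fin.natAdd c i) = Bk.k ω i := by
        change ck (Bc.k ω) (Bk.k ω) (Fin.natAdd c i) = _
        unfold ck
        rw [Fin.addCases_right]
      rw [this]
  have cc : Bc.cost = CH F.p Bc.lab (fun ω => (z ω, F.Z ω)) +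
      (∑ ω, F.p ω * ∑ i, ((J : ℝ) - Bc.k ω i)) * Real.log 2 := rfl
  have ckk : Bk.cost = CH F.p Bk.lab (fun ω => (z ω, F.Z ω)) +
      (∑ ω, F.p ω * ∑ i, ((J : ℝ) - Bk.k ω i)) * Real.log 2 := rfl
  have cB : B'.cost = CH F.p B'.lab F.Z +
      (∑ ω, F.p ω * ∑ i, ((J : ℝ) - B'.k ω i)) * Real.log 2 := rfl
  -- the entropy of the label
  obtain ⟨L, hL⟩ : ∃ L : F.Ω → _, L = fun ω => (z ω, (Bc.lab ω, Bk.lab ω)) := ⟨_, rfl⟩
  have l1 := CH_le_add hp0 B'.lab L F.Z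
  have hm1 : (0 : ℝ) < ((c + k : ℕ) : ℝ) + 1 := by positivity
  have l2 : CH F.p B'.lab (fun ω => (L ω, F.Z ω)) ≤
      2 * ((c + k : ℕ) * Real.log (2 * (((c + k : ℕ) : ℝ) + 1) + 3)) := by
    obtain ⟨f1, hf1⟩ : ∃ f1 : F.Ω → Fin (c + k) → ℤ,
      f1 = fun ω => flk (B'.k ω) (mco (B'.M ω) (F.u ω)) := ⟨_, rfl⟩
    obtain ⟨f2, hf2⟩ : ∃ f2 : F.Ω → Fin (c + k) → ℤ,
      f2 = fun ω => flk (B'.k ω) (mco (B'.M ω) (F.d ω)) := ⟨_, rfl⟩
    have dL : ∀ ω ω', (L ω, F.Z ω) = (L ω', F.Z ω') → z ω = z ω' ∧ Bc.k ω = Bc.k ω' ∧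
        Bc.M ω = Bc.M ω' ∧ Bk.k ω = Bk.k ω' ∧ Bk.M ω = Bk.M ω' ∧
        flk (Bc.k ω) (mco (Bc.M ω) ((pj F z A hA (Fin.castAdd k) J le_rfl).u ω)) =
        flk (Bc.k ω') (mco (Bc.M ω') ((pj F z A hA (Fin.castAdd k) J le_rfl).u ω')) ∧
        flk (Bc.k ω) (mco (Bc.M ω) ((pj F z A hA (Fin.castAdd k) J le_rfl).d ω)) =
        flk (Bc.k ω') (mco (Bc.M ω') ((pj F z A hA (Fin.castAdd k) J le_rfl).d ω')) ∧
        flk (Bk.k ω) (mco (Bk.M ω) ((pj F z A hA (Fin.natAdd c) J le_rfl).u ω)) =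
        flk (Bk.k ω') (mco (Bk.M ω') ((pj F z A hA (Fin.natAdd c) J le_rfl).u ω')) ∧
        flk (Bk.k ω) (mco (Bk.M ω) ((pj F z A hA (Fin.natAdd c) J le_rfl).d ω)) =
        flk (Bk.k ω') (mco (Bk.M ω') ((pj F z A hA (Fin.natAdd c) J le_rfl).d ω')) := by
      intro ω ω' h
      rw [hL] at h
      simp only [Lbl.lab, Prod.mk.injEq] at h
      tauto
    have e1 : CH F.p B'.lab (fun ω => (L ω, F.Z ω)) =
        CH F.p (fun ω => (f1 ω, f2 ω)) (fun ω => (L ω, F.Z ω)) := by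
      refine CH_congr hp0 ?_ ?_ (fun _ _ _ _ h => h) (fun _ _ _ _ h => h)
      · intro ω ω' _ _ h
        have h3 : B'.lab ω = B'.lab ω' := (Prod.ext_iff.mp h).1
        simp only [Lbl.lab, Prod.mk.injEq] at h3
        change (f1 ω, f2 ω) = (f1 ω', f2 ω')
        rw [hf1, hf2]
        exact Prod.ext h3.2.1 h3.2.2
      · intro ω ω' _ _ h
        have h1 : (f1 ω, f2 ω) = (f1 ω', f2 ω') := (Prod.ext_iff.mp h).1
        have h2 : (L ω, F.Z ω) = (L ω', F.Z ω') := (Prod.ext_iff.mp h).2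
        obtain ⟨g1, g2, g3, g4, g5, _⟩ := dL ω ω' h2
        have g6 : B'.k ω = B'.k ω' := by
          change ck (Bc.k ω) (Bk.k ω) = ck (Bc.k ω') (Bk.k ω')
          rw [g2, g4]
        have g7 : B'.M ω = B'.M ω' := by
          change cM (A (z ω)) (Bc.M ω) (Bk.M ω) = cM (A (z ω')) (Bc.M ω') (Bk.M ω')
          rw [g1, g3, g5]
        have g8 : f1 ω = f1 ω' := congrArg Prod.fst h1
        have g9 : f2 ω = f2 ω' := congrArg Prod.snd h1
        rw [hf1] at g8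
        rw [hf2] at g9
        unfold Lbl.lab
        exact Prod.ext (Prod.ext g6 g7) (Prod.ext g8 g9)
    rw [e1]
    have e2 := CH_chain hp0 f1 f2 (fun ω => (L ω, F.Z ω))
    have e3 : CH F.p f1 (fun ω => (f2 ω, (L ω, F.Z ω))) ≤ CH F.p f1 (fun ω => (L ω, F.Z ω)) := by
      refine CH_mono_cond hp0 ?_
      intro ω ω' _ _ h
      exact (Prod.ext_iff.mp h).2
    have e4 : CH F.p f1 (fun ω => (L ω, F.Z ω)) ≤
        (c + k : ℕ) * Real.log (2 * (((c + k : ℕ) : ℝ) + 1) + 3) := by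
      have e5 : f1 = fun ω => fl 0 (fun i => 2 ^ B'.k ω i * mco (B'.M ω) (F.u ω) i) := by
        rw [hf1]
        funext ω
        exact flk_eq _ _
      rw [e5]
      refine CH_fl hp 0 _ _ _ ?_
      intro ω ω' _ _ h i
      obtain ⟨g1, g2, g3, g4, g5, g6, _, g8, _⟩ := dL ω ω' h
      rw [← g2, ← g3] at g6
      rw [← g4, ← g5] at g8
      have g10 : B'.k ω' = B'.k ω := by
        change ck (Bc.k ω') (Bk.k ω') = ck (Bc.k ω) (Bk.k ω)
        rw [g2, g4]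
      have g11 : B'.M ω' = B'.M ω := by
        change cM (A (z ω')) (Bc.M ω') (Bk.M ω') = cM (A (z ω)) (Bc.M ω) (Bk.M ω)
        rw [g1, g3, g5]
      rw [g10, g11]
      exact near (A := A (z ω)) (M := Bc.M ω) (N := Bk.M ω) (f := Bc.k ω) (g := Bk.k ω)
        (x := F.u ω) (x' := F.u ω') hm1 (fun i => rfl) (fun i => by rw [g1]; rfl)
        (fun i => rfl) (fun i => by rw [g1]; rfl) g6 g8 i
    have e6 : CH F.p f2 (fun ω => (L ω, F.Z ω)) ≤
        (c + k : ℕ) * Real.log (2 * (((c + k : ℕ) : ℝ) + 1) + 3) := by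
      have e5 : f2 = fun ω => fl 0 (fun i => 2 ^ B'.k ω i * mco (B'.M ω) (F.d ω) i) := by
        rw [hf2]
        funext ω
        exact flk_eq _ _
      rw [e5]
      refine CH_fl hp 0 _ _ _ ?_
      intro ω ω' _ _ h i
      obtain ⟨g1, g2, g3, g4, g5, _, g6, _, g8⟩ := dL ω ω' h
      rw [← g2, ← g3] at g6
      rw [← g4, ← g5] at g8
      have g10 : B'.k ω' = B'.k ω := by
        change ck (Bc.k ω') (Bk.k ω') = ck (Bc.k ω) (Bk.k ω)
        rw [g2, g4]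
      have g11 : B'.M ω' = B'.M ω := by
        change cM (A (z ω')) (Bc.M ω') (Bk.M ω') = cM (A (z ω)) (Bc.M ω) (Bk.M ω)
        rw [g1, g3, g5]
      rw [g10, g11]
      exact near (A := A (z ω)) (M := Bc.M ω) (N := Bk.M ω) (f := Bc.k ω) (g := Bk.k ω)
        (x := F.d ω) (x' := F.d ω') hm1 (fun i => rfl) (fun i => by rw [g1]; rfl)
        (fun i => rfl) (fun i => by rw [g1]; rfl) g6 g8 i
    linarith
  have l3 : CH F.p L F.Z ≤ CH F.p z F.Z + CH F.p Bc.lab (fun ω => (z ω, F.Z ω)) +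
      CH F.p Bk.lab (fun ω => (z ω, F.Z ω)) := by
    have h1 := CH_chain hp0 (fun ω => (Bc.lab ω, Bk.lab ω)) z F.Z
    have h2 : CH F.p L F.Z = CH F.p (fun ω => ((Bc.lab ω, Bk.lab ω), z ω)) F.Z := by
      rw [hL]
      refine CH_congr hp0 ?_ ?_ (fun _ _ _ _ h => h) (fun _ _ _ _ h => h)
      · intro ω ω' _ _ h
        simp only [Prod.mk.injEq] at h ⊢
        tauto
      · intro ω ω' _ _ h
        simp only [Prod.mk.injEq] at h ⊢
        tauto
    have h3 := CH_chain hp0 Bc.lab Bk.lab (fun ω => (z ω, F.Z ω))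
    have h4 : CH F.p Bc.lab (fun ω => (Bk.lab ω, (z ω, F.Z ω))) ≤
        CH F.p Bc.lab (fun ω => (z ω, F.Z ω)) := by
      refine CH_mono_cond hp0 ?_
      intro ω ω' _ _ h
      exact (Prod.ext_iff.mp h).2
    linarith
  -- the positions
  have x1 := pj_X F z A hA (Fin.castAdd k)
  have x2 := pj_X F z A hA (Fin.natAdd c)
  have x3 : CH F.p (fun ω => fl J (prj (A (z ω)) (Fin.castAdd k) (F.x ω)))
      (fun ω => (z ω, F.W ω)) ≤
      CH F.p (fun ω => fl P (prj (A (z ω)) (Fin.castAdd k) (F.x ω))) (fun ω => (z ω, F.W ω)) +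
      c * (((J : ℝ) - P) * Real.log 2) + c * Real.log 5 := by
    have h5 := tim_dig hp (fun ω => prj (A (z ω)) (Fin.castAdd k) (F.x ω)) P (J - P)
      (fun ω => (z ω, F.W ω))
    have eJ : P + (J - P) = J := Nat.add_sub_cancel' hP
    have eJr : ((J - P : ℕ) : ℝ) = (J : ℝ) - P := by
      push_cast [hP]
      ring
    rwa [eJ, eJr] at h5
  have x4 : CH F.p (fun ω => fl J (prj (A (z ω)) (Fin.natAdd c) (F.x ω)))
      (fun ω => (z ω, F.W ω)) ≤
      CH F.p (F.X J) (fun ω => (z ω, F.W ω)) + k * Real.log (2 * ((c + k : ℕ) : ℝ) + 3) := by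
    have h2 := CH_le_add hp0 (fun ω => fl J (prj (A (z ω)) (Fin.natAdd c) (F.x ω))) (F.X J)
      (fun ω => (z ω, F.W ω))
    have h3 := CH_fl hp J (fun ω => prj (A (z ω)) (Fin.natAdd c) (F.x ω))
      (fun ω => (F.X J ω, (z ω, F.W ω))) ((c + k : ℕ) : ℝ) (by
        intro ω ω' _ _ h i
        simp only [Prod.mk.injEq] at h
        obtain ⟨hX, hz, _⟩ := h
        rw [← hz]
        have h5 := prj_dist (hA (z ω)) (Fin.natAdd c) (fun j => of_fl_eq hX j) i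
        rwa [← div_eq_mul_one_div] at h5)
    linarith
  -- the label
  have z2 := CH_bayes hp0 z F.T F.Z
  have z2' : CH F.p z F.W = CH F.p z F.Z + CH F.p F.T (fun ω => (z ω, F.Z ω)) -
    CH F.p F.T F.Z := z2
  have z3 := CH_chain hp0 (F.X J) z F.W
  have z4 := CH_chain hp0 z (F.X J) F.W
  have z5 : CH F.p (fun ω => (F.X J ω, z ω)) F.W = CH F.p (fun ω => (z ω, F.X J ω)) F.W := by
    refine CH_congr hp0 ?_ ?_ (fun _ _ _ _ h => h) (fun _ _ _ _ h => h)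
    · intro ω ω' _ _ h
      simp only [Prod.mk.injEq] at h ⊢
      exact ⟨h.1.2, h.1.1⟩
    · intro ω ω' _ _ h
      simp only [Prod.mk.injEq] at h ⊢
      exact ⟨h.1.2, h.1.1⟩
  have hT1 : CH F.p F.T F.Z ≤ J * Real.log 2 := tim_le hp F.T J F.tim F.Z
  have hT2 : (J : ℝ) * Real.log 2 - θ * J ≤ CH F.p F.T (fun ω => (z ω, F.Z ω)) := by
    have h1 : (J : ℝ) * Real.log 2 - θ * J ≤ CH F.p F.T (fun ω => (F.l ω, F.Z ω)) := hTm
    refine h1.trans (CH_mono_cond hp0 ?_)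
    intro ω ω' h0 h0' h
    exact Prod.ext (hz ω ω' h0 h0' h) (Prod.ext_iff.mp h).2
  have hCJ : C ≤ ε / 4 * J := by
    have h1 : 4 * C / ε ≤ J := hJ₃.trans (by exact_mod_cast hJ3)
    rw [div_le_iff₀ hε] at h1
    linarith
  have hBc' : Bc.cost ≤ CH F.p ((pj F z A hA (Fin.castAdd k) J le_rfl).X J)
    (pj F z A hA (Fin.castAdd k) J le_rfl).W + ε / 4 * J := hBc
  have hBk' : Bk.cost ≤ CH F.p ((pj F z A hA (Fin.natAdd c) J le_rfl).X J)
    (pj F z A hA (Fin.natAdd c) J le_rfl).W + ε / 4 * J := hBk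
  rw [cB, s1, add_mul]
  rw [cc] at hBc'
  rw [ckk] at hBk'
  linarith

end Pool.LK
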